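import Pool.Agent.H743.X17.IsoStm
import Pool.Graph.R_seed8.Y809.BSD14.Tam3
import Pool.Agent.H743.X17.TAMP

/-!
# I17 ITS1: the Tamagawa numbers of `I^j_m` at `17`, `17 ∤ N`, `j = 1, 2` (type `I₁`)

All the points have nonsingular reduction: in coordinates `Y = 2 y + a₁ x` the equation is
`Y² = l q` with `16 q = (8 x + 9 N)² - 17 N²`, `l = x` (`j = 1`) or `q = (x - 8 N)² - 68 N²`,
`l = 4 x + N` (`j = 2`); singular reduction means `q ≡ 0`, then `l` is a unit and `q` has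
valuation `1`.
-/

set_option autoImplicit false

open scoped Classical

open WeierstrassCurve

namespace Pool.Agent.H338.I17

open Pool.Agent.H743.X17
open Pool.Agent.Y700 (SingRed E0 tam PtP)
open Pool.Agent.Y809.BSD14

section seventeen

variable [Fact (Nat.Prime 17)] {W : WeierstrassCurve ℤ} {N : ℤ}

theorem n17 : ‖(17 : ℚ_[17])‖ = 1 / 17 := by
  have := Padic.norm_p (p := 17)
  simpa using this

theorem lt17 {x : ℚ_[17]} (h : ‖x‖ < 1) : ‖x‖ ≤ 1 / 17 := by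
  have := norm_le_inv 17 h
  simpa using this

theorem sq_lt {x : ℚ_[17]} (h : ‖x ^ 2‖ < 1) : ‖x‖ < 1 := by
  rw [norm_pow] at h
  by_contra h1
  rw [not_lt] at h1
  have := one_le_pow₀ h1 (n := 2)
  linarith

theorem unit_int {n : ℤ} (h : ¬ (17 : ℤ) ∣ n) : ‖(n : ℚ_[17])‖ = 1 :=
  le_antisymm (Padic.norm_int_le_one n) (not_lt.1 fun h1 => h (by
    have := (Padic.norm_intCast_lt_one_iff (p := 17) (k := n)).1 h1
    exact_mod_cast this))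

/-- `U² - 17 c = s` is impossible if `|U| < 1`, `|c| = 1` and `|s| ≤ 1/289` -/
theorem no_val {U c s : ℚ_[17]} (hU : ‖U‖ < 1) (hc : ‖c‖ = 1) (hs : ‖s‖ ≤ 1 / 289)
    (h : U ^ 2 - 17 * c = s) : False := by
  have h1 : 17 * c = U ^ 2 - s := by rw [← h]; ring
  have h2 : ‖17 * c‖ = 1 / 17 := by rw [norm_mul, n17, hc, mul_one]
  have h3 : ‖U ^ 2‖ ≤ 1 / 289 := by
    rw [norm_pow]
    have := pow_le_pow_left₀ (norm_nonneg U) (lt17 hU) 2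
    norm_num at this
    exact this
  have h4 : ‖U ^ 2 - s‖ ≤ 1 / 289 := by
    rw [sub_eq_add_neg]
    refine (IsUltrametricDist.norm_add_le_max _ _).trans (max_le h3 ?_)
    rwa [norm_neg]
  rw [← h1, h2] at h4
  norm_num at h4

/-- if `Y² = l q` with `|l| = 1`, `|Y| < 1` then `|q| ≤ 1/289` -/
theorem q_small {Y l q : ℚ_[17]} (hY : ‖Y‖ < 1) (hl : ‖l‖ = 1) (h : Y ^ 2 = l * q) :
    ‖q‖ ≤ 1 / 289 := by
  have h1 : ‖Y ^ 2‖ = ‖q‖ := by rw [h, norm_mul, hl, one_mul]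
  rw [← h1, norm_pow]
  have := pow_le_pow_left₀ (norm_nonneg Y) (lt17 hY) 2
  norm_num at this
  exact this

/-- the coordinates of a point with singular reduction -/
theorem sing_data (h3 : W.a₃ = 0) {x y : ℚ_[17]}
    (hE : (W.map (Int.castRingHom ℚ_[17])).toAffine.Equation x y) (hs : SingRed W 17 x y) :
    ∃ Y : ℚ_[17], ‖x‖ ≤ 1 ∧ ‖Y‖ < 1 ∧
      Y ^ 2 = 4 * x ^ 3 + (W.b₂ : ℚ_[17]) * x ^ 2 + 4 * (W.a₄ : ℚ_[17]) * x +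
        4 * (W.a₆ : ℚ_[17]) ∧
      ‖6 * x ^ 2 + (W.b₂ : ℚ_[17]) * x + 2 * (W.a₄ : ℚ_[17])‖ < 1 := by
  obtain ⟨hx, hy, hfx, hfy⟩ := hs
  have c3 : ((W.a₃ : ℤ) : ℚ_[17]) = 0 := by rw [h3, Int.cast_zero]
  have cb2 : ((W.b₂ : ℤ) : ℚ_[17]) = (W.a₁ : ℚ_[17]) ^ 2 + 4 * (W.a₂ : ℚ_[17]) := by
    rw [WeierstrassCurve.b₂]
    push_cast
    ring
  rw [c3, add_zero] at hfy
  have ha : ‖(W.a₁ : ℚ_[17])‖ ≤ 1 := Padic.norm_int_le_one _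
  have i2 : ‖(2 : ℚ_[17])‖ ≤ 1 := by exact_mod_cast nnat (K := ℚ_[17]) 2
  have hE' : y ^ 2 + (W.a₁ : ℚ_[17]) * x * y + (W.a₃ : ℚ_[17]) * y =
      x ^ 3 + (W.a₂ : ℚ_[17]) * x ^ 2 + (W.a₄ : ℚ_[17]) * x + (W.a₆ : ℚ_[17]) := by
    rw [Affine.equation_iff] at hE
    exact hE
  rw [c3] at hE'
  refine ⟨2 * y + (W.a₁ : ℚ_[17]) * x, hx, hfy, ?_, ?_⟩
  · rw [cb2]
    linear_combination 4 * hE'
  · rw [cb2]
    have e : 6 * x ^ 2 + ((W.a₁ : ℚ_[17]) ^ 2 + 4 * (W.a₂ : ℚ_[17])) * x + 2 * (W.a₄ : ℚ_[17]) =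
        (W.a₁ : ℚ_[17]) * (2 * y + (W.a₁ : ℚ_[17]) * x) -
        2 * ((W.a₁ : ℚ_[17]) * y - (3 * x ^ 2 + 2 * (W.a₂ : ℚ_[17]) * x + (W.a₄ : ℚ_[17]))) := by
      ring
    rw [e]
    exact lsub (lmul ha hfy) (lmul i2 hfx)

/-- a curve without points of singular reduction -/
theorem tam_one (h : ∀ x y : ℚ_[17], (W.map (Int.castRingHom ℚ_[17])).toAffine.Equation x y →
    ¬ SingRed W 17 x y) : tam W 17 = 1 := by
  have h1 : E0 W 17 = ⊤ := by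
    rw [eq_top_iff]
    intro P _
    apply AddSubgroup.subset_closure
    intro x y hn _
    exact h x y hn.1
  rw [tam, h1, AddSubgroup.index_top]

end seventeen

theorem t_I1 : S_ITS1 := by
  intro W N _ h hN
  apply tam_one
  intro x y hE hs
  obtain ⟨Y, hx, hY, e1, hg⟩ := sing_data h.a3 hE hs
  have cN : ‖(N : ℚ_[17])‖ ≤ 1 := Padic.norm_int_le_one _
  have uN : ‖(N : ℚ_[17])‖ = 1 := unit_int hN
  have b2 : ((W.b₂ : ℤ) : ℚ_[17]) = 9 * N := by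
    rw [h.b2]
    simp [be]
  have a4 : ((W.a₄ : ℤ) : ℚ_[17]) = (N : ℚ_[17]) ^ 2 := by
    rw [h.a4]
    simp [ga]
  have a6 : ((W.a₆ : ℤ) : ℚ_[17]) = 0 := by
    rw [h.a6]
    simp [de]
  rw [b2, a4, a6] at e1
  rw [b2, a4] at hg
  have l17 : ‖(17 : ℚ_[17])‖ < 1 := by rw [n17]; norm_num
  have i2 : ‖(2 : ℚ_[17])‖ ≤ 1 := by exact_mod_cast nnat (K := ℚ_[17]) 2
  have i4 : ‖(4 : ℚ_[17])‖ ≤ 1 := by exact_mod_cast nnat (K := ℚ_[17]) 4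
  have i8 : ‖(8 : ℚ_[17])‖ ≤ 1 := by exact_mod_cast nnat (K := ℚ_[17]) 8
  have i9 : ‖(9 : ℚ_[17])‖ ≤ 1 := by exact_mod_cast nnat (K := ℚ_[17]) 9
  have i16 : ‖(16 : ℚ_[17])‖ ≤ 1 := by exact_mod_cast nnat (K := ℚ_[17]) 16
  obtain ⟨q, hq⟩ : ∃ q : ℚ_[17], q = 4 * x ^ 2 + 9 * N * x + 4 * (N : ℚ_[17]) ^ 2 := ⟨_, rfl⟩
  have hqi : ‖q‖ ≤ 1 := by
    rw [hq]
    exact nadd (nadd (nmul i4 (npow hx 2)) (nmul (nmul i9 cN) hx)) (nmul i4 (npow cN 2))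
  have hYq : Y ^ 2 = x * q := by rw [hq]; linear_combination e1
  have hxq : ‖x * q‖ < 1 := by
    rw [← hYq, pow_two]
    exact lmul hY.le hY
  have hU1 : ‖8 * x + 9 * (N : ℚ_[17])‖ ≤ 1 := nadd (nmul i8 hx) (nmul i9 cN)
  have hq1 : ‖q‖ < 1 := by
    apply sq_lt
    have e : q ^ 2 = (2 * q) * (6 * x ^ 2 + 9 * (N : ℚ_[17]) * x + 2 * (N : ℚ_[17]) ^ 2) -
        (8 * x + 9 * (N : ℚ_[17])) * (x * q) := by
      rw [hq]
      ring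
    rw [e]
    exact lsub (lmul (nmul i2 hqi) hg) (lmul hU1 hxq)
  have e2 : (8 * x + 9 * (N : ℚ_[17])) ^ 2 = 16 * q + 17 * (N : ℚ_[17]) ^ 2 := by
    rw [hq]
    ring
  have hU : ‖8 * x + 9 * (N : ℚ_[17])‖ < 1 := by
    apply sq_lt
    rw [e2]
    exact ladd (lmul i16 hq1) (lmul' l17 (npow cN 2))
  have hxu : ‖x‖ = 1 := by
    refine le_antisymm hx (not_lt.1 fun hx1 => ?_)
    have e : (N : ℚ_[17]) = 2 * (8 * x + 9 * (N : ℚ_[17])) - 16 * x - 17 * (N : ℚ_[17]) := by ring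
    have h1 : ‖(N : ℚ_[17])‖ < 1 := by
      rw [e]
      exact lsub (lsub (lmul i2 hU) (lmul i16 hx1)) (lmul' l17 cN)
    rw [uN] at h1
    exact lt_irrefl _ h1
  have hq2 := q_small hY hxu hYq
  refine no_val (U := 8 * x + 9 * (N : ℚ_[17])) (c := (N : ℚ_[17]) ^ 2) (s := 16 * q) hU ?_ ?_ ?_
  · rw [norm_pow, uN, one_pow]
  · rw [norm_mul]
    calc ‖(16 : ℚ_[17])‖ * ‖q‖ ≤ 1 * ‖q‖ := mul_le_mul_of_nonneg_right i16 (norm_nonneg _)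
      _ ≤ 1 / 289 := by rwa [one_mul]
  · linear_combination e2

theorem t_I2 : S_ITS2 := by
  intro W N _ h hN
  apply tam_one
  intro x y hE hs
  obtain ⟨Y, hx, hY, e1, hg⟩ := sing_data h.a3 hE hs
  have cN : ‖(N : ℚ_[17])‖ ≤ 1 := Padic.norm_int_le_one _
  have uN : ‖(N : ℚ_[17])‖ = 1 := unit_int hN
  have b2 : ((W.b₂ : ℤ) : ℚ_[17]) = -63 * N := by
    rw [h.b2]
    simp [be]
  have a4 : ((W.a₄ : ℤ) : ℚ_[17]) = -8 * (N : ℚ_[17]) ^ 2 := by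
    rw [h.a4]
    simp [ga]
  have a6 : ((W.a₆ : ℤ) : ℚ_[17]) = -(N : ℚ_[17]) ^ 3 := by
    rw [h.a6]
    simp [de]
  rw [b2, a4, a6] at e1
  rw [b2, a4] at hg
  have l17 : ‖(17 : ℚ_[17])‖ < 1 := by rw [n17]; norm_num
  have i2 : ‖(2 : ℚ_[17])‖ ≤ 1 := by exact_mod_cast nnat (K := ℚ_[17]) 2
  have i4 : ‖(4 : ℚ_[17])‖ ≤ 1 := by exact_mod_cast nnat (K := ℚ_[17]) 4
  have i8 : ‖(8 : ℚ_[17])‖ ≤ 1 := by exact_mod_cast nnat (K := ℚ_[17]) 8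
  have i16 : ‖(16 : ℚ_[17])‖ ≤ 1 := by exact_mod_cast nnat (K := ℚ_[17]) 16
  have u4 : ‖(4 : ℚ_[17])‖ = 1 := norm4 (by norm_num)
  obtain ⟨q, hq⟩ : ∃ q : ℚ_[17], q = x ^ 2 - 16 * N * x - 4 * (N : ℚ_[17]) ^ 2 := ⟨_, rfl⟩
  have hqi : ‖q‖ ≤ 1 := by
    rw [hq]
    exact nsub (nsub (npow hx 2) (nmul (nmul i16 cN) hx)) (nmul i4 (npow cN 2))
  have hYq : Y ^ 2 = (4 * x + N) * q := by rw [hq]; linear_combination e1
  have hxq : ‖(4 * x + N) * q‖ < 1 := by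
    rw [← hYq, pow_two]
    exact lmul hY.le hY
  have hV1 : ‖x - 8 * (N : ℚ_[17])‖ ≤ 1 := nsub hx (nmul i8 cN)
  have hq1 : ‖q‖ < 1 := by
    have h4 : ‖(2 * q) ^ 2‖ < 1 := by
      have e : (2 * q) ^ 2 =
          (2 * q) * (6 * x ^ 2 + -63 * (N : ℚ_[17]) * x + 2 * (-8 * (N : ℚ_[17]) ^ 2)) -
          (2 * (x - 8 * (N : ℚ_[17]))) * ((4 * x + N) * q) := by
        rw [hq]
        ring
      rw [e]
      exact lsub (lmul (nmul i2 hqi) hg) (lmul (nmul i2 hV1) hxq)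
    have h5 := sq_lt h4
    have u2 : ‖(2 : ℚ_[17])‖ = 1 := norm2 (by norm_num)
    rwa [norm_mul, u2, one_mul] at h5
  have e2 : (x - 8 * (N : ℚ_[17])) ^ 2 = q + 17 * (4 * (N : ℚ_[17]) ^ 2) := by
    rw [hq]
    ring
  have hU : ‖x - 8 * (N : ℚ_[17])‖ < 1 := by
    apply sq_lt
    rw [e2]
    exact ladd hq1 (lmul' l17 (nmul i4 (npow cN 2)))
  have hlu : ‖4 * x + (N : ℚ_[17])‖ = 1 := by
    refine le_antisymm (nadd (nmul i4 hx) cN) (not_lt.1 fun hx1 => ?_)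
    have e : (N : ℚ_[17]) = 4 * (x - 8 * (N : ℚ_[17])) + 17 * (2 * (N : ℚ_[17])) -
        (4 * x + (N : ℚ_[17])) := by ring
    have h1 : ‖(N : ℚ_[17])‖ < 1 := by
      rw [e]
      exact lsub (ladd (lmul i4 hU) (lmul' l17 (nmul i2 cN))) hx1
    rw [uN] at h1
    exact lt_irrefl _ h1
  have hq2 := q_small hY hlu hYq
  refine no_val (U := x - 8 * (N : ℚ_[17])) (c := 4 * (N : ℚ_[17]) ^ 2) (s := q) hU ?_ hq2 ?_
  · rw [norm_mul, u4, norm_pow, uN, one_pow, mul_one]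
  · linear_combination e2

theorem t_ITS1 : S_ITS1 ∧ S_ITS2 := ⟨t_I1, t_I2⟩

end Pool.Agent.H338.I17
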